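import Mathlib

/-!
# Rainbow Hamilton cycles in the flip graph of the 2-subsets

Definitions, and a criterion by tables for the existence of a factorization.
-/

set_option autoImplicit false

namespace Pool.Agent.Q39.RH

/-- The subsets `A` and `B` of `{0, …, n - 1}` are adjacent in the flip graph: `B` arises from `A` by
swapping one element of `A` for one element which is not in `A`. -/
def Adj {n : ℕ} (A B : Finset (Fin n)) : Prop := (A \ B).card = 1 ∧ (B \ A).card = 1

instance {n : ℕ} (A B : Finset (Fin n)) : Decidable (Adj A B) := by unfold Adj; infer_instance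

/-- The sequence `c`, indexed by the integers modulo `n.choose 2`, is a rainbow Hamilton cycle of the
flip graph `G_{n,2}` of the 2-subsets of `{0, …, n - 1}`: its `n.choose 2` terms are pairwise different
2-subsets, consecutive terms are adjacent, and each of the `n.choose 2` transpositions `t` is the
colour `c i ∆ c (i + 1)` of exactly one edge of the cycle. -/
structure IsRainbowHamiltonCycle (n : ℕ) (c : ZMod (n.choose 2) → Finset (Fin n)) : Prop where
  card : ∀ i, (c i).card = 2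
  inj : ∀ i j, c i = c j → i = j
  adj : ∀ i, Adj (c i) (c (i + 1))
  rainbow : ∀ t : Finset (Fin n), t.card = 2 → ∃! i, symmDiff (c i) (c (i + 1)) = t

/-- The edge set of `G_{n,2}` can be partitioned into `n - 2` rainbow Hamilton cycles: there are
`n - 2` such cycles, and each edge `{A, B}` of `G_{n,2}` is an edge of exactly one of them. -/
def HasFactorization (n : ℕ) : Prop :=
  ∃ c : Fin (n - 2) → ZMod (n.choose 2) → Finset (Fin n),
    (∀ k, IsRainbowHamiltonCycle n (c k)) ∧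
    ∀ A B : Finset (Fin n), A.card = 2 → B.card = 2 → Adj A B →
      ∃! k, ∃ i, s(A, B) = s(c k i, c k (i + 1))

/-- A criterion by tables. -/
theorem of_table {n N : ℕ} (hN : n.choose 2 = N) (pr : Fin N → Finset (Fin n))
    (hcard : ∀ a, (pr a).card = 2)
    (hinj : ∀ a b, pr a = pr b → a = b)
    (hsurj : ∀ t : Finset (Fin n), t.card = 2 → ∃ a, pr a = t)
    (col : Fin N → Fin N → Fin N)
    (hcol : ∀ a b, Adj (pr a) (pr b) → symmDiff (pr a) (pr b) = pr (col a b))
    (T : Fin (n - 2) → ZMod N → Fin N)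
    (hT : ∀ k i j, T k i = T k j → i = j)
    (hadj : ∀ k i, Adj (pr (T k i)) (pr (T k (i + 1))))
    (hrain : ∀ k t, ∃ i, col (T k i) (T k (i + 1)) = t ∧
      ∀ j, col (T k j) (T k (j + 1)) = t → j = i)
    (hpart : ∀ a b, Adj (pr a) (pr b) → ∃ k, (∃ i, (a = T k i ∧ b = T k (i + 1)) ∨
      (a = T k (i + 1) ∧ b = T k i)) ∧ ∀ k', (∃ i, (a = T k' i ∧ b = T k' (i + 1)) ∨
      (a = T k' (i + 1) ∧ b = T k' i)) → k' = k) : HasFactorization n := by
  subst hN
  refine ⟨fun k i => pr (T k i), fun k => ⟨fun i => hcard _, fun i j h => hT k i j (hinj _ _ h),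
    hadj k, fun t ht => ?_⟩, fun A B hA hB hAB => ?_⟩
  · obtain ⟨a, rfl⟩ := hsurj t ht
    obtain ⟨i, h1, h2⟩ := hrain k a
    refine ⟨i, ?_, fun j hj => h2 j ?_⟩
    · show symmDiff (pr (T k i)) (pr (T k (i + 1))) = pr a
      rw [hcol _ _ (hadj k i), h1]
    · have h3 : symmDiff (pr (T k j)) (pr (T k (j + 1))) = pr a := hj
      rw [hcol _ _ (hadj k j)] at h3
      exact hinj _ _ h3
  · obtain ⟨a, rfl⟩ := hsurj A hA
    obtain ⟨b, rfl⟩ := hsurj B hB
    obtain ⟨k, ⟨i, h1⟩, h2⟩ := hpart a b hAB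
    have key : ∀ k' : Fin (n - 2), (∃ i, s(pr a, pr b) = s(pr (T k' i), pr (T k' (i + 1)))) →
        ∃ i, (a = T k' i ∧ b = T k' (i + 1)) ∨ (a = T k' (i + 1) ∧ b = T k' i) := by
      rintro k' ⟨i, hi⟩
      refine ⟨i, ?_⟩
      rcases Sym2.eq_iff.1 hi with ⟨h3, h4⟩ | ⟨h3, h4⟩
      · exact Or.inl ⟨hinj _ _ h3, hinj _ _ h4⟩
      · exact Or.inr ⟨hinj _ _ h3, hinj _ _ h4⟩
    refine ⟨k, ⟨i, ?_⟩, fun k' hk' => h2 k' (key k' hk')⟩
    rcases h1 with ⟨h3, h4⟩ | ⟨h3, h4⟩
    · show s(pr a, pr b) = s(pr (T k i), pr (T k (i + 1)))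
      rw [h3, h4]
    · show s(pr a, pr b) = s(pr (T k i), pr (T k (i + 1)))
      rw [h3, h4, Sym2.eq_swap]

/-- A criterion by tables, with places. -/
theorem of_table2 {n N : ℕ} (hN : n.choose 2 = N) (pr : Fin N → Finset (Fin n))
    (hcard : ∀ a, (pr a).card = 2)
    (hinj : ∀ a b, pr a = pr b → a = b)
    (hsurj : ∀ x y : Fin n, x ≠ y → ∃ a, pr a = {x, y})
    (col : Fin N → Fin N → Fin N)
    (hcol : ∀ a b, Adj (pr a) (pr b) → symmDiff (pr a) (pr b) = pr (col a b))
    (T : Fin (n - 2) → ZMod N → Fin N) (inv rk : Fin (n - 2) → Fin N → ZMod N)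
    (locK : Fin N → Fin N → Fin (n - 2)) (locI : Fin N → Fin N → ZMod N)
    (h1 : ∀ a b, Adj (pr a) (pr b) →
      (a = T (locK a b) (locI a b) ∧ b = T (locK a b) (locI a b + 1)) ∨
      (a = T (locK a b) (locI a b + 1) ∧ b = T (locK a b) (locI a b)))
    (h2 : ∀ k i, locK (T k i) (T k (i + 1)) = k ∧ locK (T k (i + 1)) (T k i) = k)
    (h3 : ∀ k t, col (T k (rk k t)) (T k (rk k t + 1)) = t)
    (h4 : ∀ k i, rk k (col (T k i) (T k (i + 1))) = i)
    (h5 : ∀ k i, inv k (T k i) = i)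
    (h6 : ∀ k i, Adj (pr (T k i)) (pr (T k (i + 1)))) : HasFactorization n := by
  refine of_table hN pr hcard hinj (fun t ht => ?_) col hcol T (fun k i j h => ?_) h6
    (fun k t => ⟨rk k t, h3 k t, fun j hj => ?_⟩)
    (fun a b hab => ⟨locK a b, ⟨locI a b, h1 a b hab⟩, ?_⟩)
  · obtain ⟨x, y, hxy, rfl⟩ := Finset.card_eq_two.1 ht
    exact hsurj x y hxy
  · rw [← h5 k i, ← h5 k j, h]
  · rw [← hj, h4]
  · rintro k' ⟨i, ⟨rfl, rfl⟩ | ⟨rfl, rfl⟩⟩
    · exact (h2 k' i).1.symm
    · exact (h2 k' i).2.symm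

/-- the entry of a table -/
def tab (M : List (List ℕ)) (i j : ℕ) : ℕ := (M.getD i []).getD j 0

end Pool.Agent.Q39.RH
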