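import Pool.Agent.Q39.RH.Defs

/-!
# No factorization for `n = 5`
-/

set_option autoImplicit false

namespace Pool.Agent.Q39.RH

/-- the numbers of the neighbours of the vertex with the number `a`, with the numbers of the colour and
of the edge -/
def nb (a : ℕ) : List (ℕ × ℕ × ℕ) :=
  [[(1, 2, 0), (2, 1, 1), (3, 4, 2), (4, 3, 3), (6, 7, 4), (7, 6, 5)],
   [(0, 2, 0), (2, 0, 6), (3, 5, 7), (5, 3, 8), (6, 8, 9), (8, 6, 10)],
   [(0, 1, 1), (1, 0, 6), (4, 5, 11), (5, 4, 12), (7, 8, 13), (8, 7, 14)],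
   [(0, 4, 2), (1, 5, 7), (4, 0, 15), (5, 1, 16), (6, 9, 17), (9, 6, 18)],
   [(0, 3, 3), (2, 5, 11), (3, 0, 15), (5, 2, 19), (7, 9, 20), (9, 7, 21)],
   [(1, 3, 8), (2, 4, 12), (3, 1, 16), (4, 2, 19), (8, 9, 22), (9, 8, 23)],
   [(0, 7, 4), (1, 8, 9), (3, 9, 17), (7, 0, 24), (8, 1, 25), (9, 3, 26)],
   [(0, 6, 5), (2, 8, 13), (4, 9, 20), (6, 0, 24), (8, 2, 27), (9, 4, 28)],
   [(1, 6, 10), (2, 7, 14), (5, 9, 22), (6, 1, 25), (7, 2, 27), (9, 5, 29)],
   [(3, 6, 18), (4, 7, 21), (5, 8, 23), (6, 3, 26), (7, 4, 28), (8, 5, 29)]].getD a []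

/-- the set of the numbers `f 0, …, f (n - 1)` -/
def mask (f : ℕ → ℕ) : ℕ → ℕ
  | 0 => 0
  | n + 1 => mask f n ||| 1 <<< f n

lemma testBit_mask (f : ℕ → ℕ) (n x : ℕ) : (mask f n).testBit x = true ↔ ∃ i < n, f i = x := by
  induction n with
  | zero => simp [mask]
  | succ n ih =>
    rw [mask, Nat.testBit_or, Bool.or_eq_true, ih, Nat.one_shiftLeft, Nat.testBit_two_pow]
    constructor
    · rintro (⟨i, h1, h2⟩ | h)
      · exact ⟨i, by omega, h2⟩
      · exact ⟨n, by omega, by simpa using h⟩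
    · rintro ⟨i, h1, h2⟩
      rcases Nat.lt_succ_iff_lt_or_eq.1 h1 with h | h
      · exact Or.inl ⟨i, h, h2⟩
      · subst h
        exact Or.inr (by simpa using h2)

/-- the sets of the edges of the rainbow Hamilton cycles which continue a given path -/
def go : ℕ → ℕ → ℕ → ℕ → ℕ → List ℕ
  | 0, a, _, C, E => (nb a).flatMap fun x =>
      if (x.1 == 0 && !C.testBit x.2.1) = true then [E ||| 1 <<< x.2.2] else []
  | k + 1, a, V, C, E => (nb a).flatMap fun x =>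
      if (V.testBit x.1 || C.testBit x.2.1) = true then [] else
        go k x.1 (V ||| 1 <<< x.1) (C ||| 1 <<< x.2.1) (E ||| 1 <<< x.2.2)

lemma mem_go (s C E : ℕ → ℕ) (h : ∀ i < 10, (s (i + 1), C i, E i) ∈ nb (s i)) (hs : s 10 = 0)
    (hinj : ∀ i j, i < 10 → j < 10 → s i = s j → i = j)
    (hC : ∀ i j, i < 10 → j < 10 → C i = C j → i = j) :
    ∀ k i, i + k = 9 → mask E 10 ∈ go k (s i) (mask s (i + 1)) (mask C i) (mask E i) := by
  intro k
  induction k with
  | zero =>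
    intro i hi
    obtain rfl : i = 9 := by omega
    unfold go
    rw [List.mem_flatMap]
    refine ⟨_, h 9 (by norm_num), ?_⟩
    have h1 : (mask C 9).testBit (C 9) = false := by
      by_contra h2
      rw [Bool.not_eq_false, testBit_mask] at h2
      obtain ⟨i, h3, h4⟩ := h2
      have := hC i 9 (by omega) (by omega) h4
      omega
    rw [if_pos]
    · exact List.mem_singleton.2 rfl
    · simp only [hs, h1]
      rfl
  | succ k ih =>
    intro i hi
    unfold go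
    rw [List.mem_flatMap]
    refine ⟨_, h i (by omega), ?_⟩
    have h1 : (mask C i).testBit (C i) = false := by
      by_contra h2
      rw [Bool.not_eq_false, testBit_mask] at h2
      obtain ⟨j, h3, h4⟩ := h2
      have := hC j i (by omega) (by omega) h4
      omega
    have h2 : (mask s (i + 1)).testBit (s (i + 1)) = false := by
      by_contra h2
      rw [Bool.not_eq_false, testBit_mask] at h2
      obtain ⟨j, h3, h4⟩ := h2
      have := hinj j (i + 1) (by omega) (by omega) h4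
      omega
    rw [if_neg]
    · exact ih (i + 1) (by omega)
    · simp only [h1, h2]
      decide

lemma no_three : ∀ a ∈ go 9 0 1 0 0, ∀ b ∈ go 9 0 1 0 0, a &&& b = 0 →
    ∀ c ∈ go 9 0 1 0 0, a &&& c = 0 → b &&& c ≠ 0 := by
  decide +kernel

/-- the vertices -/
def pr5 (a : Fin 10) : Finset (Fin 5) :=
  (![{0, 1}, {0, 2}, {1, 2}, {0, 3}, {1, 3}, {2, 3}, {0, 4}, {1, 4}, {2, 4}, {3, 4}] :
    Fin 10 → Finset (Fin 5)) a

lemma pr5_surj : ∀ t : Finset (Fin 5), t.card = 2 → ∃ a, pr5 a = t := by decide +kernel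

/-- the ends of the edges -/
def ends (e : ℕ) : Fin 10 × Fin 10 :=
  [(0, 1), (0, 2), (0, 3), (0, 4), (0, 6), (0, 7), (1, 2), (1, 3), (1, 5), (1, 6), (1, 8), (2, 4),
   (2, 5), (2, 7), (2, 8), (3, 4), (3, 5), (3, 6), (3, 9), (4, 5), (4, 7), (4, 9), (5, 8), (5, 9),
   (6, 7), (6, 8), (6, 9), (7, 8), (7, 9), (8, 9)].getD e (0, 0)

lemma nb_spec : ∀ a b : Fin 10, Adj (pr5 a) (pr5 b) → ∃ c e : Fin 30, ((b : ℕ), (c : ℕ), (e : ℕ)) ∈ nb a ∧
    (∃ h : (c : ℕ) < 10, pr5 ⟨c, h⟩ = symmDiff (pr5 a) (pr5 b)) ∧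
    (((ends e).1 = a ∧ (ends e).2 = b) ∨ ((ends e).1 = b ∧ (ends e).2 = a)) := by
  decide +kernel

end Pool.Agent.Q39.RH
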