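import Pool.Agent.Q39.RH.Five

/-!
# No factorization for `n = 5`: conclusion
-/

set_option autoImplicit false

namespace Pool.Agent.Q39.RH

lemma pr5_card : ∀ a : Fin 10, (pr5 a).card = 2 := by decide +kernel

lemma key5 (c : ZMod (Nat.choose 5 2) → Finset (Fin 5)) (H : IsRainbowHamiltonCycle 5 c) :
    ∃ M ∈ go 9 0 1 0 0, ∀ e, M.testBit e = true →
      Adj (pr5 (ends e).1) (pr5 (ends e).2) ∧
      ∃ i, s(pr5 (ends e).1, pr5 (ends e).2) = s(c i, c (i + 1)) := by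
  have hne : NeZero (Nat.choose 5 2) := ⟨by decide⟩
  have hf : ∀ i, ∃ a, pr5 a = c i := fun i => pr5_surj _ (H.card i)
  choose f hf using hf
  have finj : Function.Injective f := by
    intro i j h
    exact H.inj i j (by rw [← hf i, ← hf j, h])
  have hcard : Fintype.card (ZMod (Nat.choose 5 2)) = Fintype.card (Fin 10) := by
    rw [ZMod.card, Fintype.card_fin]
    rfl
  have fsurj := ((Fintype.bijective_iff_injective_and_card f).2 ⟨finj, hcard⟩).2
  obtain ⟨j0, hj0⟩ := fsurj 0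
  have hn : ∀ i, ∃ x e : Fin 30, ((f (i + 1) : ℕ), (x : ℕ), (e : ℕ)) ∈ nb (f i) ∧
      (∃ h : (x : ℕ) < 10, pr5 ⟨x, h⟩ = symmDiff (c i) (c (i + 1))) ∧
      (((ends e).1 = f i ∧ (ends e).2 = f (i + 1)) ∨
        ((ends e).1 = f (i + 1) ∧ (ends e).2 = f i)) := by
    intro i
    have h := nb_spec (f i) (f (i + 1)) (by rw [hf, hf]; exact H.adj i)
    rw [hf, hf] at h
    exact h
  choose C E h1 h2 h3 using hn
  have hcast : ∀ i j : ℕ, i < 10 → j < 10 →
      j0 + (i : ZMod (Nat.choose 5 2)) = j0 + (j : ZMod (Nat.choose 5 2)) → i = j := by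
    intro i j hi hj h
    have h4 := add_left_cancel h
    rw [ZMod.natCast_eq_natCast_iff] at h4
    have h5 : i % 10 = j % 10 := h4
    omega
  have hadd : ∀ i : ℕ, j0 + ((i + 1 : ℕ) : ZMod (Nat.choose 5 2)) =
      j0 + (i : ZMod (Nat.choose 5 2)) + 1 := by
    intro i
    push_cast
    ring
  have hmem := mem_go (fun t => (f (j0 + (t : ZMod (Nat.choose 5 2))) : ℕ))
    (fun t => (C (j0 + (t : ZMod (Nat.choose 5 2))) : ℕ))
    (fun t => (E (j0 + (t : ZMod (Nat.choose 5 2))) : ℕ))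
    (fun i hi => by
      show ((f (j0 + ((i + 1 : ℕ) : ZMod (Nat.choose 5 2))) : ℕ), _, _) ∈ _
      rw [hadd]
      exact h1 _)
    (by
      show (f (j0 + ((10 : ℕ) : ZMod (Nat.choose 5 2))) : ℕ) = 0
      have h4 : ((10 : ℕ) : ZMod (Nat.choose 5 2)) = 0 := ZMod.natCast_self _
      rw [h4, add_zero, hj0]
      rfl)
    (fun i j hi hj h => hcast i j hi hj (finj (Fin.ext h)))
    (fun i j hi hj h => by
      apply hcast i j hi hj
      have h4 : C (j0 + (i : ZMod (Nat.choose 5 2))) = C (j0 + (j : ZMod (Nat.choose 5 2))) :=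
        Fin.ext h
      obtain ⟨a1, a2⟩ := h2 (j0 + (i : ZMod (Nat.choose 5 2)))
      obtain ⟨b1, b2⟩ := h2 (j0 + (j : ZMod (Nat.choose 5 2)))
      obtain ⟨i1, i2, i3⟩ := H.rainbow (symmDiff (c (j0 + (i : ZMod (Nat.choose 5 2))))
        (c (j0 + (i : ZMod (Nat.choose 5 2)) + 1))) (by rw [← a2]; exact pr5_card _)
      rw [i3 _ rfl]
      refine (i3 _ ?_).symm
      show symmDiff _ _ = symmDiff _ _
      rw [← a2, ← b2]
      congr 1
      exact Fin.ext h.symm)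
    9 0 rfl
  have h0 : (f (j0 + ((0 : ℕ) : ZMod (Nat.choose 5 2))) : ℕ) = 0 := by
    rw [Nat.cast_zero, add_zero, hj0]
    rfl
  have hm1 : mask (fun t => (f (j0 + (t : ZMod (Nat.choose 5 2))) : ℕ)) (0 + 1) = 1 := by
    simp only [mask, h0]
    rfl
  rw [hm1] at hmem
  simp only [h0] at hmem
  refine ⟨_, hmem, fun e he => ?_⟩
  obtain ⟨i, hi, rfl⟩ := (testBit_mask _ _ _).1 he
  set z := j0 + (i : ZMod (Nat.choose 5 2)) with hz
  rcases h3 z with ⟨h5, h6⟩ | ⟨h5, h6⟩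
  · rw [h5, h6, hf, hf]
    exact ⟨H.adj z, z, rfl⟩
  · rw [h5, h6, hf, hf]
    exact ⟨⟨(H.adj z).2, (H.adj z).1⟩, z, Sym2.eq_swap⟩

theorem not_five : ¬ HasFactorization 5 := by
  rintro ⟨c, hc, hp⟩
  obtain ⟨M0, a0, b0⟩ := key5 (c 0) (hc 0)
  obtain ⟨M1, a1, b1⟩ := key5 (c 1) (hc 1)
  obtain ⟨M2, a2, b2⟩ := key5 (c 2) (hc 2)
  have hdis : ∀ (k k' : Fin (5 - 2)) (M M' : ℕ),
      (∀ e, M.testBit e = true → Adj (pr5 (ends e).1) (pr5 (ends e).2) ∧
        ∃ i, s(pr5 (ends e).1, pr5 (ends e).2) = s(c k i, c k (i + 1))) →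
      (∀ e, M'.testBit e = true → Adj (pr5 (ends e).1) (pr5 (ends e).2) ∧
        ∃ i, s(pr5 (ends e).1, pr5 (ends e).2) = s(c k' i, c k' (i + 1))) → k ≠ k' →
      M &&& M' = 0 := by
    intro k k' M M' h h' hk
    refine Nat.eq_of_testBit_eq fun e => ?_
    rw [Nat.zero_testBit, Nat.testBit_and]
    by_contra h1
    rw [Bool.not_eq_false, Bool.and_eq_true] at h1
    obtain ⟨h2, h3⟩ := h e h1.1
    obtain ⟨h4, h5⟩ := h' e h1.2
    obtain ⟨k0, -, h6⟩ := hp _ _ (pr5_card _) (pr5_card _) h2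
    exact hk ((h6 k h3).trans (h6 k' h5).symm)
  have d01 := hdis 0 1 M0 M1 b0 b1 (by decide)
  have d02 := hdis 0 2 M0 M2 b0 b2 (by decide)
  have d12 := hdis 1 2 M1 M2 b1 b2 (by decide)
  exact no_three M0 a0 M1 a1 d01 M2 a2 d02 d12

end Pool.Agent.Q39.RH
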