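import Pool.Agent.Q39.RH.Defs

/-!
# The factorization for `n = 7`
-/

set_option autoImplicit false

namespace Pool.Agent.Q39.RH

/-- the cycles (numbers of the vertices) -/
def T7 : List (List ℕ) :=
  [[0, 1, 6, 10, 11, 13, 3, 18, 15, 19, 14, 8, 9, 4, 7, 16, 20, 12, 5, 17, 2],
   [2, 4, 0, 11, 12, 14, 7, 19, 16, 15, 10, 3, 6, 8, 1, 17, 20, 13, 9, 18, 5],
   [5, 8, 2, 12, 13, 10, 1, 15, 17, 16, 11, 7, 0, 3, 4, 18, 20, 14, 6, 19, 9],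
   [9, 3, 5, 13, 14, 11, 4, 16, 18, 17, 12, 1, 2, 7, 8, 19, 20, 10, 0, 15, 6],
   [6, 7, 9, 14, 10, 12, 8, 17, 19, 18, 13, 4, 5, 1, 3, 15, 20, 11, 2, 16, 0]]

/-- the vertices -/
def V7 : List (List ℕ) :=
  [[0, 1],
   [0, 2],
   [1, 2],
   [0, 3],
   [1, 3],
   [2, 3],
   [0, 4],
   [1, 4],
   [2, 4],
   [3, 4],
   [0, 5],
   [1, 5],
   [2, 5],
   [3, 5],
   [4, 5],
   [0, 6],
   [1, 6],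
   [2, 6],
   [3, 6],
   [4, 6],
   [5, 6]]

/-- the numbers of the colours -/
def C7 : List (List ℕ) :=
  [[0, 2, 1, 4, 3, 0, 7, 6, 0, 0, 11, 10, 0, 0, 0, 16, 15, 0, 0, 0, 0],
   [2, 0, 0, 5, 0, 3, 8, 0, 6, 0, 12, 0, 10, 0, 0, 17, 0, 15, 0, 0, 0],
   [1, 0, 0, 0, 5, 4, 0, 8, 7, 0, 0, 12, 11, 0, 0, 0, 17, 16, 0, 0, 0],
   [4, 5, 0, 0, 0, 1, 9, 0, 0, 6, 13, 0, 0, 10, 0, 18, 0, 0, 15, 0, 0],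
   [3, 0, 5, 0, 0, 2, 0, 9, 0, 7, 0, 13, 0, 11, 0, 0, 18, 0, 16, 0, 0],
   [0, 3, 4, 1, 2, 0, 0, 0, 9, 8, 0, 0, 13, 12, 0, 0, 0, 18, 17, 0, 0],
   [7, 8, 0, 9, 0, 0, 0, 0, 1, 3, 14, 0, 0, 0, 10, 19, 0, 0, 0, 15, 0],
   [6, 0, 8, 0, 9, 0, 0, 0, 2, 4, 0, 14, 0, 0, 11, 0, 19, 0, 0, 16, 0],
   [0, 6, 7, 0, 0, 9, 1, 2, 0, 5, 0, 0, 14, 0, 12, 0, 0, 19, 0, 17, 0],
   [0, 0, 0, 6, 7, 8, 3, 4, 5, 0, 0, 0, 0, 14, 13, 0, 0, 0, 19, 18, 0],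
   [11, 12, 0, 13, 0, 0, 14, 0, 0, 0, 0, 0, 1, 3, 6, 20, 0, 0, 0, 0, 15],
   [10, 0, 12, 0, 13, 0, 0, 14, 0, 0, 0, 0, 2, 4, 7, 0, 20, 0, 0, 0, 16],
   [0, 10, 11, 0, 0, 13, 0, 0, 14, 0, 1, 2, 0, 5, 8, 0, 0, 20, 0, 0, 17],
   [0, 0, 0, 10, 11, 12, 0, 0, 0, 14, 3, 4, 5, 0, 9, 0, 0, 0, 20, 0, 18],
   [0, 0, 0, 0, 0, 0, 10, 11, 12, 13, 6, 7, 8, 9, 0, 0, 0, 0, 0, 20, 19],
   [16, 17, 0, 18, 0, 0, 19, 0, 0, 0, 20, 0, 0, 0, 0, 0, 0, 1, 3, 6, 10],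
   [15, 0, 17, 0, 18, 0, 0, 19, 0, 0, 0, 20, 0, 0, 0, 0, 0, 2, 4, 7, 11],
   [0, 15, 16, 0, 0, 18, 0, 0, 19, 0, 0, 0, 20, 0, 0, 1, 2, 0, 5, 8, 12],
   [0, 0, 0, 15, 16, 17, 0, 0, 0, 19, 0, 0, 0, 20, 0, 3, 4, 5, 0, 9, 13],
   [0, 0, 0, 0, 0, 0, 15, 16, 17, 18, 0, 0, 0, 0, 20, 6, 7, 8, 9, 0, 14],
   [0, 0, 0, 0, 0, 0, 0, 0, 0, 0, 15, 16, 17, 18, 19, 10, 11, 12, 13, 14, 0]]

/-- the places of the edges -/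
def L7 : List (List ℕ) :=
  [[0, 0, 41, 108, 45, 0, 208, 107, 0, 0, 161, 46, 0, 0, 0, 162, 207, 0, 0, 0, 0],
   [1, 0, 148, 194, 0, 193, 2, 0, 69, 0, 95, 0, 147, 0, 0, 96, 0, 70, 0, 0, 0],
   [40, 149, 0, 0, 42, 83, 0, 150, 87, 0, 0, 203, 88, 0, 0, 0, 204, 39, 0, 0, 0],
   [109, 195, 0, 0, 110, 128, 64, 0, 0, 127, 63, 0, 0, 11, 0, 196, 0, 0, 12, 0, 0],
   [44, 0, 43, 111, 0, 190, 0, 26, 0, 25, 0, 137, 0, 189, 0, 0, 138, 0, 112, 0, 0],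
   [0, 192, 82, 129, 191, 0, 0, 0, 84, 125, 0, 0, 35, 130, 0, 0, 0, 36, 81, 0, 0],
   [209, 3, 0, 65, 0, 0, 0, 168, 66, 166, 4, 0, 0, 0, 119, 165, 0, 0, 0, 120, 0],
   [106, 0, 151, 0, 27, 0, 169, 0, 152, 170, 0, 105, 0, 0, 53, 0, 28, 0, 0, 54, 0],
   [0, 68, 86, 0, 0, 85, 67, 153, 0, 22, 0, 0, 179, 0, 21, 0, 0, 180, 0, 154, 0],
   [0, 0, 0, 126, 24, 124, 167, 171, 23, 0, 0, 0, 0, 77, 172, 0, 0, 0, 78, 123, 0],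
   [160, 94, 0, 62, 0, 0, 5, 0, 0, 0, 0, 6, 176, 93, 175, 61, 0, 0, 0, 0, 159],
   [47, 0, 202, 0, 136, 0, 0, 104, 0, 0, 7, 0, 48, 8, 135, 0, 103, 0, 0, 0, 201],
   [0, 146, 89, 0, 0, 34, 0, 0, 178, 0, 177, 49, 0, 90, 50, 0, 0, 145, 0, 0, 33],
   [0, 0, 0, 10, 188, 131, 0, 0, 0, 76, 92, 9, 91, 0, 132, 0, 0, 0, 187, 0, 75],
   [0, 0, 0, 0, 0, 0, 118, 52, 20, 173, 174, 134, 51, 133, 0, 0, 0, 0, 0, 19, 117],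
   [163, 97, 0, 197, 0, 0, 164, 0, 0, 0, 60, 0, 0, 0, 0, 0, 59, 98, 15, 16, 198],
   [206, 0, 205, 0, 139, 0, 0, 29, 0, 0, 0, 102, 0, 0, 0, 58, 0, 101, 140, 57, 30],
   [0, 71, 38, 0, 0, 37, 0, 0, 181, 0, 0, 0, 144, 0, 0, 99, 100, 0, 143, 182, 72],
   [0, 0, 0, 13, 113, 80, 0, 0, 0, 79, 0, 0, 0, 186, 0, 14, 141, 142, 0, 185, 114],
   [0, 0, 0, 0, 0, 0, 121, 55, 155, 122, 0, 0, 0, 0, 18, 17, 56, 183, 184, 0, 156],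
   [0, 0, 0, 0, 0, 0, 0, 0, 0, 0, 158, 200, 32, 74, 116, 199, 31, 73, 115, 157, 0]]

/-- the places of the colours -/
def R7 : List (List ℕ) :=
  [[3, 20, 0, 7, 4, 11, 8, 12, 1, 13, 5, 15, 10, 17, 2, 6, 19, 16, 18, 14, 9],
   [8, 12, 3, 1, 20, 0, 13, 7, 4, 11, 2, 5, 15, 10, 17, 14, 6, 19, 16, 18, 9],
   [13, 7, 8, 4, 12, 3, 11, 1, 20, 0, 17, 2, 5, 15, 10, 18, 14, 6, 19, 16, 9],
   [11, 1, 13, 20, 7, 8, 0, 4, 12, 3, 10, 17, 2, 5, 15, 16, 18, 14, 6, 19, 9],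
   [0, 4, 11, 12, 1, 13, 3, 20, 7, 8, 15, 10, 17, 2, 5, 19, 16, 18, 14, 6, 9]]

/-- the places of the vertices -/
def I7 : List (List ℕ) :=
  [[0, 1, 20, 6, 13, 18, 2, 14, 11, 12, 3, 4, 17, 5, 10, 8, 15, 19, 7, 9, 16],
   [2, 14, 0, 11, 1, 20, 12, 6, 13, 18, 10, 3, 4, 17, 5, 9, 8, 15, 19, 7, 16],
   [12, 6, 2, 13, 14, 0, 18, 11, 1, 20, 5, 10, 3, 4, 17, 7, 9, 8, 15, 19, 16],
   [18, 11, 12, 1, 6, 2, 20, 13, 14, 0, 17, 5, 10, 3, 4, 19, 7, 9, 8, 15, 16],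
   [20, 13, 18, 14, 11, 12, 0, 1, 6, 2, 4, 17, 5, 10, 3, 15, 19, 7, 9, 8, 16]]


/-- the vertices -/
def pr7 (a : Fin 21) : Finset (Fin 7) := {Fin.ofNat 7 (tab V7 a 0), Fin.ofNat 7 (tab V7 a 1)}

theorem fact7 : HasFactorization 7 := by
  refine of_table2 (N := 21) rfl pr7 (by decide +kernel) (by decide +kernel) (by decide +kernel)
    (fun a b => Fin.ofNat 21 (tab C7 a b)) (by decide +kernel)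
    (fun k (i : Fin 21) => Fin.ofNat 21 (tab T7 k i))
    (fun k a => (Fin.ofNat 21 (tab I7 k a) : Fin 21))
    (fun k a => (Fin.ofNat 21 (tab R7 k a) : Fin 21))
    (fun a b => (Fin.ofNat 5 (tab L7 a b / (2 * 21)) : Fin 5))
    (fun a b => (Fin.ofNat 21 (tab L7 a b / 2) : Fin 21))
    (by decide +kernel) (by decide +kernel) (by decide +kernel)
    (by change ∀ (k : Fin _) (i : Fin 21), (_ : Fin 21) = _; decide +kernel)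
    (by change ∀ (k : Fin _) (i : Fin 21), (_ : Fin 21) = _; decide +kernel)
    (by decide +kernel)

end Pool.Agent.Q39.RH
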